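import Pool.Agent.N86.S6.Small
import Pool.Agent.N86.S6.Par

/-!
# Steiner systems `S(4, k, q + 1)` on the projective line: tools
-/

set_option autoImplicit false

namespace Pool.Agent.N86.S4

open Finset Matrix Pool.Agent.N86.S6

section closure
variable {K : Type*} [Field K] [DecidableEq K]

omit [DecidableEq K] in
/-- two reflections make a rotation -/
lemma closure_of (S T : Finset K) (hS0 : (0 : K) ∉ S) (hT0 : (0 : K) ∉ T) (hc : 3 ≤ S.card)
    (h : ∀ x ∈ S, ∀ y ∈ S, x ≠ y → ∀ z ∈ T, x * y / z ∈ T) :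
    ∀ x ∈ S, ∀ y ∈ S, ∀ z ∈ T, x / y * z ∈ T := by
  classical
  intro x hx y hy z hz
  have hx0 : x ≠ 0 := fun e => hS0 (e ▸ hx)
  have hy0 : y ≠ 0 := fun e => hS0 (e ▸ hy)
  have hz0 : z ≠ 0 := fun e => hT0 (e ▸ hz)
  by_cases hxy : x = y
  · rw [hxy, div_self hy0, one_mul]; exact hz
  obtain ⟨n, hn, hn2⟩ : ∃ n ∈ S, n ∉ ({x, y} : Finset K) := by
    refine Finset.exists_mem_notMem_of_card_lt_card (lt_of_le_of_lt ?_ (show 2 < S.card by omega))
    exact Finset.card_le_two
  simp only [Finset.mem_insert, Finset.mem_singleton, not_or] at hn2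
  have hn0 : n ≠ 0 := fun e => hS0 (e ▸ hn)
  have h1 := h y hy n hn (fun e => hn2.2 e.symm) z hz
  have h2 := h x hx n hn (fun e => hn2.1 e.symm) _ h1
  have h3 : x * n / (y * n / z) = x / y * z := by field_simp
  rwa [h3] at h2

omit [DecidableEq K] in
lemma pow_card_eq_one (S : Finset K) (h0 : (0 : K) ∉ S)
    (hm : ∀ x ∈ S, ∀ y ∈ S, x * y ∈ S) : ∀ x ∈ S, x ^ S.card = 1 := by
  classical
  intro x hx
  have hx0 : x ≠ 0 := fun e => h0 (e ▸ hx)
  have hinj : Function.Injective (fun y : K => x * y) := mul_right_injective₀ hx0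
  have himg : S.image (fun y => x * y) = S := by
    refine Finset.eq_of_subset_of_card_le ?_ ?_
    · rw [Finset.image_subset_iff]
      exact fun y hy => hm x hx y hy
    · rw [Finset.card_image_of_injective _ hinj]
  have hP : (∏ y ∈ S, y) ≠ 0 := by
    rw [Finset.prod_ne_zero_iff]
    exact fun y hy e => h0 (e ▸ hy)
  have h1 : (∏ y ∈ S, y) = x ^ S.card * ∏ y ∈ S, y := by
    conv_lhs => rw [← himg]
    rw [Finset.prod_image (fun a _ b _ e => hinj e), Finset.prod_mul_distrib, Finset.prod_const]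
  have h2 : (x ^ S.card - 1) * ∏ y ∈ S, y = 0 := by linear_combination -h1
  exact sub_eq_zero.1 ((mul_eq_zero.1 h2).resolve_right hP)

omit [DecidableEq K] in
/-- a finite multiplicatively closed set consists of all the roots of unity of its order -/
lemma mem_of_pow (S : Finset K) (h0 : (0 : K) ∉ S) (hne : S.Nonempty)
    (hm : ∀ x ∈ S, ∀ y ∈ S, x * y ∈ S) {x : K} (hx : x ^ S.card = 1) : x ∈ S := by
  classical
  have hpos : 0 < S.card := Finset.card_pos.2 hne
  have h1 : S ⊆ (Polynomial.nthRoots S.card (1 : K)).toFinset := by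
    intro y hy
    rw [Multiset.mem_toFinset, Polynomial.mem_nthRoots hpos]
    exact pow_card_eq_one S h0 hm y hy
  have h2 : S = (Polynomial.nthRoots S.card (1 : K)).toFinset := by
    refine Finset.eq_of_subset_of_card_le h1 ?_
    exact (Multiset.toFinset_card_le _).trans (Polynomial.card_nthRoots _ _)
  rw [h2, Multiset.mem_toFinset, Polynomial.mem_nthRoots hpos]
  exact hx

omit [DecidableEq K] in
lemma subset_of_dvd (S T : Finset K) (hS0 : (0 : K) ∉ S) (hT0 : (0 : K) ∉ T)
    (hTne : T.Nonempty) (hS : ∀ x ∈ S, ∀ y ∈ S, x * y ∈ S) (hT : ∀ x ∈ T, ∀ y ∈ T, x * y ∈ T)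
    (hd : S.card ∣ T.card) : S ⊆ T := by
  intro x hx
  refine mem_of_pow T hT0 hTne hT ?_
  obtain ⟨m, hm⟩ := hd
  rw [hm, pow_mul, pow_card_eq_one S hS0 hS x hx, one_pow]

end closure

section designs
variable {K : Type*} [Field K] [DecidableEq K] [Fintype K] {k : ℕ}
  {𝓑 : Finset (Finset (OnePoint K))}

/-- the nonzero elements of a block -/
noncomputable def core (B : Finset (OnePoint K)) : Finset K :=
  Finset.univ.filter (fun x => x ≠ 0 ∧ (x : OnePoint K) ∈ B)

lemma mem_core {B : Finset (OnePoint K)} {x : K} : x ∈ core B ↔ x ≠ 0 ∧ (x : OnePoint K) ∈ B := by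
  unfold core
  rw [Finset.mem_filter]
  exact ⟨fun h => h.2, fun h => ⟨Finset.mem_univ _, h⟩⟩

lemma zero_notMem_core (B : Finset (OnePoint K)) : (0 : K) ∉ core B := fun h => (mem_core.1 h).1 rfl

lemma card_core {B : Finset (OnePoint K)} (h1 : OnePoint.infty ∈ B)
    (h0 : ((0 : K) : OnePoint K) ∈ B) : (core B).card + 2 = B.card := by
  have h2 : B = insert OnePoint.infty (insert ((0 : K) : OnePoint K)
      ((core B).map ⟨fun x : K => (x : OnePoint K), OnePoint.coe_injective⟩)) := by
    ext x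
    simp only [Finset.mem_insert, Finset.mem_map, Function.Embedding.coeFn_mk]
    induction x using OnePoint.rec with
    | infty => simp [h1]
    | coe x =>
      constructor
      · intro hx
        by_cases hx0 : x = 0
        · right; left; rw [hx0]
        · right; right
          exact ⟨x, mem_core.2 ⟨hx0, hx⟩, rfl⟩
      · rintro (h | h | ⟨y, hy, h⟩)
        · exact absurd h (OnePoint.coe_ne_infty _)
        · rw [h]; exact h0
        · rw [← h]; exact (mem_core.1 hy).2
  conv_rhs => rw [h2]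
  rw [Finset.card_insert_of_notMem, Finset.card_insert_of_notMem, Finset.card_map]
  · simp only [Finset.mem_map, Function.Embedding.coeFn_mk, not_exists, not_and]
    intro x hx h
    rw [OnePoint.coe_eq_coe] at h
    exact (mem_core.1 hx).1 h
  · simp only [Finset.mem_insert, Finset.mem_map, Function.Embedding.coeFn_mk, not_or, not_exists,
      not_and]
    exact ⟨OnePoint.infty_ne_coe _, fun x _ => OnePoint.coe_ne_infty _⟩

/-- the four points `∞, 0, x, y` -/
noncomputable def four (x y : K) : Finset (OnePoint K) :=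
  {OnePoint.infty, ((0 : K) : OnePoint K), (x : OnePoint K), (y : OnePoint K)}

omit [Fintype K] in
lemma four_card {x y : K} (hx : x ≠ 0) (hy : y ≠ 0) (hxy : x ≠ y) : (four x y).card = 4 := by
  unfold four
  rw [Finset.card_insert_of_notMem, Finset.card_insert_of_notMem, Finset.card_insert_of_notMem,
    Finset.card_singleton]
  · rw [Finset.mem_singleton, OnePoint.coe_eq_coe]; exact hxy
  · simp only [Finset.mem_insert, Finset.mem_singleton, OnePoint.coe_eq_coe, not_or]
    exact ⟨hx.symm, hy.symm⟩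
  · simp

/-- a block through `∞` and `0` -/
structure Through (𝓑 : Finset (Finset (OnePoint K))) (B : Finset (OnePoint K)) : Prop where
  mem : B ∈ 𝓑
  inf : OnePoint.infty ∈ B
  zero : ((0 : K) : OnePoint K) ∈ B

lemma Through.four_subset {B : Finset (OnePoint K)} (h : Through 𝓑 B) {x y : K}
    (hx : x ∈ core B) (hy : y ∈ core B) : four x y ⊆ B := by
  unfold four
  intro z hz
  simp only [Finset.mem_insert, Finset.mem_singleton] at hz
  rcases hz with rfl | rfl | rfl | rfl
  · exact h.inf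
  · exact h.zero
  · exact (mem_core.1 hx).2
  · exact (mem_core.1 hy).2

lemma exists_through (hD : IsDesign 4 k 1 𝓑) {x y : K} (hx : x ≠ 0) (hy : y ≠ 0) (hxy : x ≠ y) :
    ∃ B, Through 𝓑 B ∧ x ∈ core B ∧ y ∈ core B := by
  obtain ⟨B, hB, hS⟩ := block_exists hD (four_card hx hy hxy)
  have h : ∀ z ∈ four x y, z ∈ B := hS
  refine ⟨B, ⟨hB, h _ (by simp [four]), h _ (by simp [four])⟩, ?_, ?_⟩
  · exact mem_core.2 ⟨hx, h _ (by simp [four])⟩
  · exact mem_core.2 ⟨hy, h _ (by simp [four])⟩

lemma Through.unique (hD : IsDesign 4 k 1 𝓑) {B B' : Finset (OnePoint K)} (h : Through 𝓑 B)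
    (h' : Through 𝓑 B') {x y : K} (hxy : x ≠ y) (hx : x ∈ core B) (hy : y ∈ core B)
    (hx' : x ∈ core B') (hy' : y ∈ core B') : B = B' := by
  refine block_unique hD h.mem h'.mem (S := four x y) ?_ (h.four_subset hx hy)
    (h'.four_subset hx' hy')
  rw [four_card (mem_core.1 hx).1 (mem_core.1 hy).1 hxy]

/-- if four points of the block `B` go to points of the block `B'`, then `B` goes to `B'` -/
lemma image_block4 (hD : IsDesign 4 k 1 𝓑)
    (hSL : ∀ A : SpecialLinearGroup (Fin 2) K, ∀ B ∈ 𝓑, B.image (slPerm A) ∈ 𝓑)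
    (A : SpecialLinearGroup (Fin 2) K) {B B' : Finset (OnePoint K)} (hB : B ∈ 𝓑) (hB' : B' ∈ 𝓑)
    (S : Finset (OnePoint K)) (hS : S.card = 4) (hSB : S ⊆ B) (h : ∀ x ∈ S, slPerm A x ∈ B') :
    ∀ y ∈ B, slPerm A y ∈ B' := by
  have h1 : B.image (slPerm A) = B' := by
    refine block_unique hD (hSL A B hB) hB' (S := S.image (slPerm A)) ?_ ?_ ?_
    · rw [Finset.card_image_of_injective _ (slPerm A).injective, hS]
    · exact Finset.image_subset_image hSB
    · rw [Finset.image_subset_iff]; exact h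
  intro y hy
  rw [← h1]
  exact Finset.mem_image_of_mem _ hy

variable (hD : IsDesign 4 k 1 𝓑)
  (hSL : ∀ A : SpecialLinearGroup (Fin 2) K, ∀ B ∈ 𝓑, B.image (slPerm A) ∈ 𝓑)
include hD hSL

/-- the transformation `z ↦ x y / z` -/
lemma Through.tau {B : Finset (OnePoint K)} (h : Through 𝓑 B) {x y : K} (hxy : x ≠ y)
    (hx : x ∈ core B) (hy : y ∈ core B) (hs : IsSquare (-(x * y))) :
    ∀ z ∈ core B, x * y / z ∈ core B := by
  obtain ⟨s, hs⟩ := hs
  have hx0 := (mem_core.1 hx).1
  have hy0 := (mem_core.1 hy).1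
  have hs0 : s ≠ 0 := by
    rintro rfl
    exact mul_ne_zero hx0 hy0 (by linear_combination -hs)
  have hdet : (0 : K) * 0 - x * y * 1 = s ^ 2 := by linear_combination hs
  have hcoe : ∀ z : K, z ≠ 0 →
      slPerm (mobM 0 (x * y) 1 0 s hdet hs0) (z : OnePoint K) = ((x * y / z : K) : OnePoint K) := by
    intro z hz
    rw [mob_coe _ _ _ _ _ _ _ z (by rw [add_zero, one_mul]; exact hz)]
    congr 1
    rw [zero_mul, zero_add, one_mul, add_zero]
  have key := image_block4 hD hSL (mobM 0 (x * y) 1 0 s hdet hs0) h.mem h.mem (four x y)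
    (four_card hx0 hy0 hxy) (h.four_subset hx hy) (by
      intro z hz
      simp only [four, Finset.mem_insert, Finset.mem_singleton] at hz
      rcases hz with rfl | rfl | rfl | rfl
      · rw [mob_infty _ _ _ _ _ _ _ one_ne_zero, zero_div]; exact h.zero
      · rw [mob_coe' _ _ _ _ _ _ _ _ (by ring)]; exact h.inf
      · rw [hcoe x hx0, show x * y / x = y by field_simp]; exact (mem_core.1 hy).2
      · rw [hcoe y hy0, show x * y / y = x by field_simp]; exact (mem_core.1 hx).2)
  intro z hz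
  have hz' := mem_core.1 hz
  have h1 := key _ hz'.2
  rw [hcoe z hz'.1] at h1
  exact mem_core.2 ⟨div_ne_zero (mul_ne_zero hx0 hy0) hz'.1, h1⟩

/-- the transformation `z ↦ m z` -/
lemma Through.rho {B : Finset (OnePoint K)} (h : Through 𝓑 B) {x y m : K} (hxy : x ≠ y)
    (hx : x ∈ core B) (hy : y ∈ core B) (hm0 : m ≠ 0) (hs : IsSquare m)
    (hmx : m * x ∈ core B) (hmy : m * y ∈ core B) :
    ∀ z ∈ core B, m * z ∈ core B := by
  obtain ⟨s, hs⟩ := hs
  have hx0 := (mem_core.1 hx).1
  have hy0 := (mem_core.1 hy).1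
  have hs0 : s ≠ 0 := by
    rintro rfl
    exact hm0 (by linear_combination hs)
  have hdet : m * 1 - 0 * 0 = s ^ 2 := by linear_combination hs
  have hcoe : ∀ z : K,
      slPerm (mobM m 0 0 1 s hdet hs0) (z : OnePoint K) = ((m * z : K) : OnePoint K) := by
    intro z
    rw [mob_coe _ _ _ _ _ _ _ z (by rw [zero_mul, zero_add]; exact one_ne_zero)]
    congr 1
    rw [zero_mul, zero_add, add_zero, div_one]
  have key := image_block4 hD hSL (mobM m 0 0 1 s hdet hs0) h.mem h.mem (four x y)
    (four_card hx0 hy0 hxy) (h.four_subset hx hy) (by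
      intro z hz
      simp only [four, Finset.mem_insert, Finset.mem_singleton] at hz
      rcases hz with rfl | rfl | rfl | rfl
      · rw [mob_infty' _ _ _ _ _ _ _ rfl]; exact h.inf
      · rw [hcoe, mul_zero]; exact h.zero
      · rw [hcoe]; exact (mem_core.1 hmx).2
      · rw [hcoe]; exact (mem_core.1 hmy).2)
  intro z hz
  have hz' := mem_core.1 hz
  have h1 := key _ hz'.2
  rw [hcoe z] at h1
  exact mem_core.2 ⟨mul_ne_zero hm0 hz'.1, h1⟩

/-- the involution with `0 ↔ a`, `∞ ↔ b` -/
lemma Through.alpha {B : Finset (OnePoint K)} (h : Through 𝓑 B) {a b : K} (hab : a ≠ b)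
    (ha : a ∈ core B) (hb : b ∈ core B) (hs : IsSquare (b * (a - b))) :
    ∀ z ∈ core B, z ≠ b → ((b * (z - a) / (z - b) : K) : OnePoint K) ∈ B := by
  obtain ⟨s, hs⟩ := hs
  have ha0 := (mem_core.1 ha).1
  have hb0 := (mem_core.1 hb).1
  have hs0 : s ≠ 0 := by
    rintro rfl
    exact mul_ne_zero hb0 (sub_ne_zero.2 hab) (by linear_combination hs)
  have hdet : b * -b - -(a * b) * 1 = s ^ 2 := by linear_combination hs
  have hcoe : ∀ z : K, z ≠ b → slPerm (mobM b (-(a * b)) 1 (-b) s hdet hs0) (z : OnePoint K) =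
      ((b * (z - a) / (z - b) : K) : OnePoint K) := by
    intro z hz
    rw [mob_coe _ _ _ _ _ _ _ z (by rw [one_mul, ← sub_eq_add_neg]; exact sub_ne_zero.2 hz)]
    congr 1
    congr 1 <;> ring
  have key := image_block4 hD hSL (mobM b (-(a * b)) 1 (-b) s hdet hs0) h.mem h.mem (four a b)
    (four_card ha0 hb0 hab) (h.four_subset ha hb) (by
      intro z hz
      simp only [four, Finset.mem_insert, Finset.mem_singleton] at hz
      rcases hz with rfl | rfl | rfl | rfl
      · rw [mob_infty _ _ _ _ _ _ _ one_ne_zero, div_one]; exact (mem_core.1 hb).2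
      · rw [hcoe _ hb0.symm, show b * (0 - a) / (0 - b) = a by
          rw [zero_sub, zero_sub, mul_neg, neg_div_neg_eq, mul_div_cancel_left₀ _ hb0]]
        exact (mem_core.1 ha).2
      · rw [hcoe _ hab, sub_self, mul_zero, zero_div]; exact h.zero
      · rw [mob_coe' _ _ _ _ _ _ _ _ (by ring)]; exact h.inf)
  intro z hz hzb
  have h1 := key _ (mem_core.1 hz).2
  rwa [hcoe z hzb] at h1

end designs

end Pool.Agent.N86.S4
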