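import Pool.Agent.N86.S4.Base

/-!
# Steiner systems `S(4, k, q + 1)` on the projective line: the cases
-/

set_option autoImplicit false

namespace Pool.Agent.N86.S4

open Finset Matrix Pool.Agent.N86.S6

variable {K : Type*} [Field K] [DecidableEq K] [Fintype K] {k : ℕ}
  {𝓑 : Finset (Finset (OnePoint K))}

/-- if all nonzero elements lie in one core, the block is everything -/
lemma full_of_all (hD : IsDesign 4 k 1 𝓑) {B : Finset (OnePoint K)} (h : Through 𝓑 B)
    (hall : ∀ x : K, x ≠ 0 → x ∈ core B) : k = Fintype.card K + 1 := by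
  have h1 : B = Finset.univ := by
    ext x
    refine ⟨fun _ => Finset.mem_univ _, fun _ => ?_⟩
    induction x using OnePoint.rec with
    | infty => exact h.inf
    | coe x =>
      by_cases hx : x = 0
      · rw [hx]; exact h.zero
      · exact (mem_core.1 (hall x hx)).2
  rw [← hD.1 B h.mem, h1, Finset.card_univ]
  exact Fintype.card_option

lemma Through.card (hD : IsDesign 4 k 1 𝓑) {B : Finset (OnePoint K)} (h : Through 𝓑 B) :
    (core B).card + 2 = k := by
  rw [card_core h.inf h.zero, hD.1 B h.mem]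

/-- characteristic two -/
theorem case_two (hD : IsDesign 4 k 1 𝓑)
    (hSL : ∀ A : SpecialLinearGroup (Fin 2) K, ∀ B ∈ 𝓑, B.image (slPerm A) ∈ 𝓑)
    (hsq : ∀ x : K, IsSquare x) (hk : 4 < k) (hkq : k < Fintype.card K + 1) : False := by
  have hmul : ∀ B, Through 𝓑 B → (1 : K) ∈ core B → ∀ x ∈ core B, ∀ y ∈ core B,
      x * y ∈ core B := by
    intro B h h1 x hx y hy
    have hc := h.card hD
    have h2 := closure_of (core B) (core B) (zero_notMem_core B) (zero_notMem_core B) (by omega)
      (fun x hx y hy hxy z hz => h.tau hD hSL hxy hx hy (hsq _) z hz) x hx 1 h1 y hy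
    rwa [div_one] at h2
  obtain ⟨x, -, hx⟩ : ∃ x ∈ (univ : Finset K), x ∉ ({0, 1} : Finset K) := by
    refine Finset.exists_mem_notMem_of_card_lt_card (lt_of_le_of_lt Finset.card_le_two ?_)
    rw [Finset.card_univ]
    omega
  simp only [Finset.mem_insert, Finset.mem_singleton, not_or] at hx
  obtain ⟨B, h, h1, -⟩ := exists_through hD one_ne_zero hx.1 (Ne.symm hx.2)
  have hall : ∀ y : K, y ≠ 0 → y ∈ core B := by
    intro y hy
    by_cases hy1 : y = 1
    · rw [hy1]; exact h1
    obtain ⟨B', h', h1', hy'⟩ := exists_through hD one_ne_zero hy (Ne.symm hy1)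
    refine subset_of_dvd _ _ (zero_notMem_core B') (zero_notMem_core B) ⟨1, h1⟩ (hmul B' h' h1')
      (hmul B h h1) ?_ hy'
    have hc := h.card hD
    have hc' := h'.card hD
    have : (core B).card = (core B').card := by omega
    rw [this]
  have := full_of_all hD h hall
  omega

section odd
variable (hp : ∀ a b : K, ¬ IsSquare a → ¬ IsSquare b → IsSquare (a * b))

/-- the squares in the core -/
noncomputable def pos (B : Finset (OnePoint K)) : Finset K :=
  by classical exact (core B).filter (fun x => IsSquare x)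

/-- the nonsquares in the core -/
noncomputable def neg (B : Finset (OnePoint K)) : Finset K :=
  by classical exact (core B).filter (fun x => ¬ IsSquare x)

lemma mem_pos {B : Finset (OnePoint K)} {x : K} : x ∈ pos B ↔ x ∈ core B ∧ IsSquare x := by
  unfold pos
  rw [Finset.mem_filter]

lemma mem_neg {B : Finset (OnePoint K)} {x : K} : x ∈ neg B ↔ x ∈ core B ∧ ¬ IsSquare x := by
  unfold neg
  rw [Finset.mem_filter]

lemma card_pos_neg (B : Finset (OnePoint K)) : (pos B).card + (neg B).card = (core B).card := by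
  classical
  unfold pos neg
  exact Finset.card_filter_add_card_filter_not (s := core B) (fun x => IsSquare x)

lemma zero_notMem_pos (B : Finset (OnePoint K)) : (0 : K) ∉ pos B :=
  fun h => zero_notMem_core B (mem_pos.1 h).1

lemma zero_notMem_neg (B : Finset (OnePoint K)) : (0 : K) ∉ neg B :=
  fun h => zero_notMem_core B (mem_neg.1 h).1

omit [DecidableEq K] [Fintype K] in
lemma not_square_mul {a b : K} (ha : IsSquare a) (ha0 : a ≠ 0) (hb : ¬ IsSquare b) :
    ¬ IsSquare (a * b) := by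
  rintro ⟨t, ht⟩
  obtain ⟨s, hs⟩ := ha
  have hs0 : s ≠ 0 := by
    rintro rfl
    exact ha0 (by rw [hs, zero_mul])
  refine hb ⟨t / s, ?_⟩
  field_simp
  linear_combination ht - b * hs

omit [DecidableEq K] [Fintype K] in
lemma not_square_div {a b : K} (ha : IsSquare a) (ha0 : a ≠ 0) (hb : ¬ IsSquare b) :
    ¬ IsSquare (a / b) := by
  intro h
  refine not_square_mul (b := b⁻¹) ha ha0 ?_ (by rwa [← div_eq_mul_inv])
  intro h2
  exact hb (by simpa using h2.inv)

include hp in
/-- `q = 3 (mod 4)` -/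
theorem case_three (hD : IsDesign 4 k 1 𝓑)
    (hSL : ∀ A : SpecialLinearGroup (Fin 2) K, ∀ B ∈ 𝓑, B.image (slPerm A) ∈ 𝓑)
    (hm1 : ¬ IsSquare (-1 : K)) (hk : 4 < k) (hkq : k < Fintype.card K + 1) : False := by
  have htau : ∀ B, Through 𝓑 B → ∀ x ∈ pos B, ∀ y ∈ neg B, ∀ z ∈ core B, x * y / z ∈ core B := by
    intro B h x hx y hy z hz
    rw [mem_pos] at hx
    rw [mem_neg] at hy
    have hxy : x ≠ y := fun e => hy.2 (by rw [← e]; exact hx.2)
    refine h.tau hD hSL hxy hx.1 hy.1 ?_ z hz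
    have h1 : IsSquare (-1 * y) := hp _ _ hm1 hy.2
    rw [show -(x * y) = x * (-1 * y) by ring]
    exact hx.2.mul h1
  have hmul : ∀ B, Through 𝓑 B → (1 : K) ∈ core B → (neg B).Nonempty → ∀ x ∈ pos B, ∀ y ∈ core B,
      x * y ∈ core B := by
    intro B h h1 ⟨u, hu⟩ x hx y hy
    have hu0 : u ≠ 0 := (mem_core.1 (mem_neg.1 hu).1).1
    have hx0 : x ≠ 0 := (mem_core.1 (mem_pos.1 hx).1).1
    have hy0 : y ≠ 0 := (mem_core.1 hy).1
    have h2 := htau B h 1 (mem_pos.2 ⟨h1, IsSquare.one⟩) u hu y hy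
    have h3 := htau B h x hx u hu _ h2
    have h4 : x * u / (1 * u / y) = x * y := by field_simp
    rwa [h4] at h3
  have hmulp : ∀ B, Through 𝓑 B → (1 : K) ∈ core B → (neg B).Nonempty → ∀ x ∈ pos B, ∀ y ∈ pos B,
      x * y ∈ pos B := fun B h h1 hne x hx y hy =>
    mem_pos.2 ⟨hmul B h h1 hne x hx y (mem_pos.1 hy).1, (mem_pos.1 hx).2.mul (mem_pos.1 hy).2⟩
  have hcard : ∀ B, Through 𝓑 B → (1 : K) ∈ core B → (neg B).Nonempty →
      2 * (pos B).card + 2 = k := by
    intro B h h1 ⟨u, hu⟩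
    have hu0 : u ≠ 0 := (mem_core.1 (mem_neg.1 hu).1).1
    have hinj : Function.Injective (fun z : K => 1 * u / z) := by
      intro a b hab
      simp only [one_mul] at hab
      rw [div_eq_mul_inv, div_eq_mul_inv] at hab
      exact inv_injective (mul_left_cancel₀ hu0 hab)
    have e1 : (pos B).card ≤ (neg B).card := by
      rw [← Finset.card_image_of_injective (pos B) hinj]
      refine Finset.card_le_card ?_
      rw [Finset.image_subset_iff]
      intro z hz
      have hz' := mem_pos.1 hz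
      have hz0 : z ≠ 0 := (mem_core.1 hz'.1).1
      rw [mem_neg]
      refine ⟨htau B h 1 (mem_pos.2 ⟨h1, IsSquare.one⟩) u hu z hz'.1, ?_⟩
      intro h2
      have h3 := not_square_mul hz'.2 hz0 (mem_neg.1 hu).2
      refine (mem_neg.1 hu).2 ?_
      have h4 : u = z * (1 * u / z) := by field_simp
      rw [h4]
      exact hz'.2.mul h2
    have e2 : (neg B).card ≤ (pos B).card := by
      rw [← Finset.card_image_of_injective (neg B) hinj]
      refine Finset.card_le_card ?_
      rw [Finset.image_subset_iff]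
      intro z hz
      have hz' := mem_neg.1 hz
      have hz0 : z ≠ 0 := (mem_core.1 hz'.1).1
      rw [mem_pos]
      refine ⟨htau B h 1 (mem_pos.2 ⟨h1, IsSquare.one⟩) u hu z hz'.1, ?_⟩
      have h2 : IsSquare (u * z) := hp _ _ (mem_neg.1 hu).2 hz'.2
      have h3 : (1 * u / z) = (u * z) * (z⁻¹ * z⁻¹) := by field_simp
      rw [h3]
      exact h2.mul ⟨z⁻¹, rfl⟩
    have e3 := card_pos_neg B
    have e4 := h.card hD
    omega
  -- a fixed block
  obtain ⟨B, h, h1, hn1⟩ := exists_through hD one_ne_zero (neg_ne_zero.2 (one_ne_zero (α := K)))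
    (fun e => hm1 (by rw [← e]; exact IsSquare.one))
  have hne : (neg B).Nonempty := ⟨-1, mem_neg.2 ⟨hn1, hm1⟩⟩
  have hc := hcard B h h1 hne
  obtain ⟨μ, hμ, hμ1⟩ : ∃ μ ∈ pos B, μ ∉ ({1} : Finset K) := by
    refine Finset.exists_mem_notMem_of_card_lt_card ?_
    rw [Finset.card_singleton]
    omega
  rw [Finset.mem_singleton] at hμ1
  have hneg : ∀ y : K, ¬ IsSquare y → y ∈ core B := by
    intro y hy
    have hy0 : y ≠ 0 := fun e => hy (by rw [e]; exact ⟨0, by ring⟩)
    obtain ⟨B', h', h1', hy'⟩ := exists_through hD one_ne_zero hy0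
      (fun e => hy (by rw [← e]; exact IsSquare.one))
    have hne' : (neg B').Nonempty := ⟨y, mem_neg.2 ⟨hy', hy⟩⟩
    have hc' := hcard B' h' h1' hne'
    have hsub : pos B ⊆ pos B' := by
      refine subset_of_dvd _ _ (zero_notMem_pos B) (zero_notMem_pos B')
        ⟨1, mem_pos.2 ⟨h1', IsSquare.one⟩⟩ (hmulp B h h1 hne) (hmulp B' h' h1' hne') ?_
      have : (pos B).card = (pos B').card := by omega
      rw [this]
    have : B' = B := h'.unique hD h (Ne.symm hμ1) h1' (mem_pos.1 (hsub hμ)).1 h1 (mem_pos.1 hμ).1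
    rw [← this]
    exact hy'
  have hall : ∀ y : K, y ≠ 0 → y ∈ core B := by
    intro y hy
    by_cases hys : IsSquare y
    · have h2 : ¬ IsSquare (-1 / y) := by
        intro h3
        refine hm1 ?_
        rw [show (-1 : K) = -1 / y * y by field_simp]
        exact h3.mul hys
      have h4 := htau B h 1 (mem_pos.2 ⟨h1, IsSquare.one⟩) (-1) (mem_neg.2 ⟨hn1, hm1⟩) _ (hneg _ h2)
      have h5 : 1 * (-1) / (-1 / y) = y := by field_simp
      rwa [h5] at h4
    · exact hneg y hys
  have := full_of_all hD h hall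
  omega

include hp in
/-- the structure of the cores for `q = 1 (mod 4)`, `k ≥ 7` or many squares in the block -/
lemma pos_structure (hD : IsDesign 4 k 1 𝓑)
    (hSL : ∀ A : SpecialLinearGroup (Fin 2) K, ∀ B ∈ 𝓑, B.image (slPerm A) ∈ 𝓑)
    (hm1 : IsSquare (-1 : K)) {B : Finset (OnePoint K)} (h : Through 𝓑 B)
    (h1 : (1 : K) ∈ core B) (hc : 3 ≤ (pos B).card ∨ 3 ≤ (neg B).card) :
    (∀ x ∈ pos B, ∀ y ∈ pos B, x * y ∈ pos B) ∧ 3 ≤ (pos B).card ∧
      ((neg B = ∅ ∧ (pos B).card + 2 = k) ∨ 2 * (pos B).card + 2 = k) := by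
  have hp1 : (1 : K) ∈ pos B := mem_pos.2 ⟨h1, IsSquare.one⟩
  -- the rotations from the squares
  have hsqdiv : ∀ a b : K, IsSquare a → IsSquare b → IsSquare (a / b) := fun a b ha hb => ha.div hb
  have htp : ∀ x ∈ pos B, ∀ y ∈ pos B, x ≠ y → ∀ z ∈ core B, x * y / z ∈ core B := by
    intro x hx y hy hxy z hz
    rw [mem_pos] at hx hy
    refine h.tau hD hSL hxy hx.1 hy.1 ?_ z hz
    rw [show -(x * y) = (-1) * (x * y) by ring]
    exact hm1.mul (hx.2.mul hy.2)
  have htn : ∀ x ∈ neg B, ∀ y ∈ neg B, x ≠ y → ∀ z ∈ core B, x * y / z ∈ core B := by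
    intro x hx y hy hxy z hz
    rw [mem_neg] at hx hy
    refine h.tau hD hSL hxy hx.1 hy.1 ?_ z hz
    rw [show -(x * y) = (-1) * (x * y) by ring]
    exact hm1.mul (hp _ _ hx.2 hy.2)
  -- if there are three nonsquares, then `neg` is not larger than `pos`
  have hneg : 3 ≤ (neg B).card → (neg B).card ≤ (pos B).card := by
    intro h3
    obtain ⟨u, hu⟩ := Finset.card_pos.1 (show 0 < (neg B).card by omega)
    have hu' := mem_neg.1 hu
    have hu0 : u ≠ 0 := (mem_core.1 hu'.1).1
    have h4 := closure_of (neg B) (core B) (zero_notMem_neg B) (zero_notMem_core B) h3 htn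
    have hinj : Function.Injective (fun z : K => z / u) := by
      intro a b hab
      simp only at hab
      rw [div_eq_mul_inv, div_eq_mul_inv] at hab
      exact mul_right_cancel₀ (inv_ne_zero hu0) hab
    rw [← Finset.card_image_of_injective (neg B) hinj]
    refine Finset.card_le_card ?_
    rw [Finset.image_subset_iff]
    intro z hz
    have h5 := h4 z hz u hu 1 h1
    rw [mul_one] at h5
    refine mem_pos.2 ⟨h5, ?_⟩
    have hz' := mem_neg.1 hz
    have h6 : z / u = (z * u) * (u⁻¹ * u⁻¹) := by field_simp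
    rw [h6]
    exact (hp _ _ hz'.2 hu'.2).mul ⟨u⁻¹, rfl⟩
  have h3 : 3 ≤ (pos B).card := by
    rcases hc with hc | hc
    · exact hc
    · exact hc.trans (hneg hc)
  have h4 := closure_of (pos B) (core B) (zero_notMem_pos B) (zero_notMem_core B) h3 htp
  have hmul : ∀ x ∈ pos B, ∀ z ∈ core B, x * z ∈ core B := by
    intro x hx z hz
    have := h4 x hx 1 hp1 z hz
    rwa [div_one] at this
  refine ⟨fun x hx y hy => mem_pos.2 ⟨hmul x hx y (mem_pos.1 hy).1,
    (mem_pos.1 hx).2.mul (mem_pos.1 hy).2⟩, h3, ?_⟩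
  have e1 := card_pos_neg B
  have e2 := h.card hD
  by_cases hne : neg B = ∅
  · left
    rw [hne, Finset.card_empty] at e1
    exact ⟨hne, by omega⟩
  · right
    obtain ⟨u, hu⟩ := Finset.nonempty_iff_ne_empty.2 hne
    have hu' := mem_neg.1 hu
    have hu0 : u ≠ 0 := (mem_core.1 hu'.1).1
    have hinj : Function.Injective (fun z : K => z * u) := mul_left_injective₀ hu0
    have h5 : (pos B).card ≤ (neg B).card := by
      rw [← Finset.card_image_of_injective (pos B) hinj]
      refine Finset.card_le_card ?_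
      rw [Finset.image_subset_iff]
      intro z hz
      refine mem_neg.2 ⟨hmul z hz u hu'.1, ?_⟩
      exact not_square_mul (mem_pos.1 hz).2 (mem_core.1 (mem_pos.1 hz).1).1 hu'.2
    have h6 := hneg (h3.trans h5)
    omega

/-- `q = 1 (mod 4)`: the block size is even -/
lemma one_even (hD : IsDesign 4 k 1 𝓑)
    (hSL : ∀ A : SpecialLinearGroup (Fin 2) K, ∀ B ∈ 𝓑, B.image (slPerm A) ∈ 𝓑)
    (hm1 : IsSquare (-1 : K)) (h2 : (2 : K) ≠ 0) : Even k := by
  have h11 : (1 : K) ≠ -1 := fun e => h2 (by linear_combination e)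
  obtain ⟨B, h, h1, hn⟩ := exists_through hD one_ne_zero (neg_ne_zero.2 (one_ne_zero (α := K))) h11
  have hinv := h.rho hD hSL h11 h1 hn (m := -1) (neg_ne_zero.2 one_ne_zero) hm1
    (by rw [mul_one]; exact hn) (by rw [neg_mul_neg, mul_one]; exact h1)
  have himg : (core B).image (Equiv.neg K) = core B := by
    refine Finset.eq_of_subset_of_card_le ?_ ?_
    · rw [Finset.image_subset_iff]
      intro z hz
      have := hinv z hz
      rwa [neg_one_mul] at this
    · rw [Finset.card_image_of_injective _ (Equiv.neg K).injective]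
  have he : Even (core B).card := by
    refine even_of_free (Equiv.neg K) (fun x => neg_neg x) (core B) himg ?_
    intro x hx e
    have hx0 := (mem_core.1 hx).1
    have e' : -x = x := e
    exact (mul_ne_zero h2 hx0) (by linear_combination -e')
  have hc := h.card hD
  rw [← hc]
  exact he.add (by decide)

include hp in
/-- `q = 1 (mod 4)`, `k ≥ 7` -/
theorem case_one_large (hD : IsDesign 4 k 1 𝓑)
    (hSL : ∀ A : SpecialLinearGroup (Fin 2) K, ∀ B ∈ 𝓑, B.image (slPerm A) ∈ 𝓑)
    (hm1 : IsSquare (-1 : K)) (hns : ∃ a : K, ¬ IsSquare a) (hk : 6 < k)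
    (hkq : k < Fintype.card K + 1) : False := by
  have hstr : ∀ B, Through 𝓑 B → (1 : K) ∈ core B →
      (∀ x ∈ pos B, ∀ y ∈ pos B, x * y ∈ pos B) ∧ 3 ≤ (pos B).card ∧
        ((neg B = ∅ ∧ (pos B).card + 2 = k) ∨ 2 * (pos B).card + 2 = k) := by
    intro B h h1
    refine pos_structure hp hD hSL hm1 h h1 ?_
    have e1 := card_pos_neg B
    have e2 := h.card hD
    omega
  obtain ⟨a, ha⟩ := hns
  have ha0 : a ≠ 0 := fun e => ha (by rw [e]; exact ⟨0, by ring⟩)
  have ha1 : (1 : K) ≠ a := fun e => ha (by rw [← e]; exact IsSquare.one)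
  obtain ⟨B, h, h1, hBa⟩ := exists_through hD one_ne_zero ha0 ha1
  have hBs := hstr B h h1
  have hc : 2 * (pos B).card + 2 = k := by
    rcases hBs.2.2 with h2 | h2
    · exfalso
      have : a ∈ neg B := mem_neg.2 ⟨hBa, ha⟩
      rw [h2.1] at this
      exact Finset.notMem_empty _ this
    · exact h2
  obtain ⟨μ, hμ, hμ1⟩ : ∃ μ ∈ pos B, μ ∉ ({1} : Finset K) := by
    refine Finset.exists_mem_notMem_of_card_lt_card ?_
    rw [Finset.card_singleton]
    omega
  rw [Finset.mem_singleton] at hμ1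
  have hall : ∀ y : K, y ≠ 0 → y ∈ core B := by
    intro y hy
    by_cases hy1 : y = 1
    · rw [hy1]; exact h1
    obtain ⟨B', h', h1', hy'⟩ := exists_through hD one_ne_zero hy (Ne.symm hy1)
    have hBs' := hstr B' h' h1'
    have hsub : pos B ⊆ pos B' := by
      refine subset_of_dvd _ _ (zero_notMem_pos B) (zero_notMem_pos B')
        ⟨1, mem_pos.2 ⟨h1', IsSquare.one⟩⟩ hBs.1 hBs'.1 ?_
      rcases hBs'.2.2 with h2 | h2
      · exact ⟨2, by omega⟩
      · exact ⟨1, by omega⟩
    have : B' = B := h'.unique hD h (Ne.symm hμ1) h1' (mem_pos.1 (hsub hμ)).1 h1 (mem_pos.1 hμ).1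
    rw [← this]
    exact hy'
  have := full_of_all hD h hall
  omega

end odd

end Pool.Agent.N86.S4
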