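import Pool.Agent.N86.S4.SixPts

/-!
# No Steiner system `S(4, k, q + 1)` on the projective line is invariant under `PSL(2, q)`
-/

set_option autoImplicit false

namespace Pool.Agent.N86.S4

open Finset Matrix Pool.Agent.N86.S6

variable {K : Type*} [Field K] [DecidableEq K] [Fintype K] {k : ℕ}
  {𝓑 : Finset (Finset (OnePoint K))}

theorem no_four (hD : IsDesign 4 k 1 𝓑)
    (hSL : ∀ A : SpecialLinearGroup (Fin 2) K, ∀ B ∈ 𝓑, B.image (slPerm A) ∈ 𝓑)
    (hk : 4 < k) (hkq : k < Fintype.card K + 1) : False := by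
  by_cases hF : ringChar K = 2
  · exact case_two hD hSL (fun x => FiniteField.isSquare_of_char_two hF x) hk hkq
  have h2 : (2 : K) ≠ 0 := Ring.two_ne_zero hF
  have hns : ∃ a : K, ¬ IsSquare a := FiniteField.exists_nonsquare hF
  have hp : ∀ a b : K, ¬ IsSquare a → ¬ IsSquare b → IsSquare (a * b) := by
    intro a b ha hb
    have e1 : quadraticChar K a = -1 := quadraticChar_neg_one_iff_not_isSquare.2 ha
    have e2 : quadraticChar K b = -1 := quadraticChar_neg_one_iff_not_isSquare.2 hb
    have ha0 : a ≠ 0 := fun e => ha (by rw [e]; exact ⟨0, by ring⟩)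
    have hb0 : b ≠ 0 := fun e => hb (by rw [e]; exact ⟨0, by ring⟩)
    refine (quadraticChar_one_iff_isSquare (mul_ne_zero ha0 hb0)).1 ?_
    rw [map_mul, e1, e2]
    norm_num
  have hodd : Fintype.card K % 2 = 1 := FiniteField.odd_card_of_char_ne_two hF
  by_cases hm1 : IsSquare (-1 : K)
  · have hq4 : Fintype.card K % 4 = 1 := by
      rw [FiniteField.isSquare_neg_one_iff] at hm1
      omega
    have he := one_even hD hSL hm1 h2
    by_cases hk6 : k = 6
    · subst hk6
      exact case_one_six hp hD hSL hm1 h2 hq4 hkq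
    · refine case_one_large hp hD hSL hm1 hns ?_ hkq
      obtain ⟨m, hm⟩ := he
      omega
  · exact case_three hp hD hSL hm1 hk hkq

end Pool.Agent.N86.S4
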