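import Pool.Agent.N86.S4.Cases

/-!
# Steiner systems `S(4, 6, q + 1)` on the projective line, `q = 1 (mod 4)`
-/

set_option autoImplicit false

namespace Pool.Agent.N86.S4

open Finset Matrix Pool.Agent.N86.S6

variable {K : Type*} [Field K] [DecidableEq K] [Fintype K] {k : ℕ}
  {𝓑 : Finset (Finset (OnePoint K))}

section
variable (hp : ∀ a b : K, ¬ IsSquare a → ¬ IsSquare b → IsSquare (a * b))
include hp

lemma alternative (hD : IsDesign 4 k 1 𝓑)
    (hSL : ∀ A : SpecialLinearGroup (Fin 2) K, ∀ B ∈ 𝓑, B.image (slPerm A) ∈ 𝓑)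
    (hm1 : IsSquare (-1 : K)) {B : Finset (OnePoint K)} (h : Through 𝓑 B) {y b b' : K}
    (hcore : ∀ z ∈ core B, z = 1 ∨ z = y ∨ z = b ∨ z = b') (h1 : (1 : K) ∈ core B)
    (hyB : y ∈ core B) (hbB : b ∈ core B) (hbB' : b' ∈ core B) (hy : IsSquare y)
    (hb : ¬ IsSquare b) (hb' : ¬ IsSquare b') (hprod : b * b' = y) (hy1 : y ≠ 1) (hbb : b ≠ b') :
    b ^ 2 * (y - 1) = y * (y - b) ∨ b * (y - b) = y * (y - 1) := by
  have hb0 : b ≠ 0 := (mem_core.1 hbB).1
  have hb0' : b' ≠ 0 := (mem_core.1 hbB').1
  have hy0 : y ≠ 0 := (mem_core.1 hyB).1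
  have hb1 : b ≠ 1 := fun e => hb (by rw [e]; exact IsSquare.one)
  have hb1' : b' ≠ 1 := fun e => hb' (by rw [e]; exact IsSquare.one)
  have hyb : y ≠ b := fun e => hb (e ▸ hy)
  have hyb' : y ≠ b' := fun e => hb' (e ▸ hy)
  have hcore' : ∀ v : K, (v : OnePoint K) ∈ B → v ≠ 0 → v ≠ 1 → v ≠ b → v = y ∨ v = b' := by
    intro v hv h0 h2 h3
    rcases hcore v (mem_core.2 ⟨h0, hv⟩) with e | e | e | e
    · exact absurd e h2
    · exact Or.inl e
    · exact absurd e h3
    · exact Or.inr e
  have hfin : y * b' = b → False := by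
    intro e
    have e2 : (y - b) * (y + b) = 0 := by linear_combination b * e - y * hprod
    rcases mul_eq_zero.1 e2 with e3 | e3
    · exact hyb (sub_eq_zero.1 e3)
    · refine hb ?_
      have : b = -1 * y := by linear_combination e3
      rw [this]
      exact hm1.mul hy
  by_cases hs : IsSquare (b * (1 - b))
  · have A := h.alpha hD hSL (a := 1) (b := b) hb1.symm h1 hbB hs
    have hv : ∀ z ∈ core B, z ≠ 1 → z ≠ b → b * (z - 1) = y * (z - b) ∨
        b * (z - 1) = b' * (z - b) := by
      intro z hz hz1 hzb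
      have hz0 : z ≠ 0 := (mem_core.1 hz).1
      have hd : z - b ≠ 0 := sub_ne_zero.2 hzb
      rcases hcore' _ (A z hz hzb) (div_ne_zero (mul_ne_zero hb0 (sub_ne_zero.2 hz1)) hd) (by
        intro e
        rw [div_eq_iff hd] at e
        have : z * (b - 1) = 0 := by linear_combination e
        exact (mul_ne_zero hz0 (sub_ne_zero.2 hb1)) this) (by
        intro e
        rw [div_eq_iff hd] at e
        have : b * (b - 1) = 0 := by linear_combination e
        exact (mul_ne_zero hb0 (sub_ne_zero.2 hb1)) this) with e | e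
      · left; rwa [div_eq_iff hd] at e
      · right; rwa [div_eq_iff hd] at e
    rcases hv y hyB hy1 hyb with e | e
    · exfalso
      rcases hv b' hbB' hb1' hbb.symm with e' | e'
      · have : (b' - y) * (b - y) = 0 := by linear_combination e' - e
        rcases mul_eq_zero.1 this with e3 | e3
        · exact hyb' (sub_eq_zero.1 e3).symm
        · exact hyb (sub_eq_zero.1 e3).symm
      · have : (y - b') * (y + b' - 2 * b) = 0 := by linear_combination e' - e
        rcases mul_eq_zero.1 this with e3 | e3
        · exact hyb' (sub_eq_zero.1 e3)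
        · exact hfin (by linear_combination e + y * e3)
    · left
      linear_combination b * e + (y - b) * hprod
  · have hs' : IsSquare (1 * (b - 1)) := by
      by_contra hcon
      rw [one_mul] at hcon
      have h3 := hm1.mul (hp _ _ hb hcon)
      refine hs ?_
      have : b * (1 - b) = -1 * (b * (b - 1)) := by ring
      rw [this]
      exact h3
    have A := h.alpha hD hSL (a := b) (b := 1) hb1 hbB h1 hs'
    have hv : ∀ z ∈ core B, z ≠ 1 → z ≠ b → z - b = y * (z - 1) ∨
        z - b = b' * (z - 1) := by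
      intro z hz hz1 hzb
      have hz0 : z ≠ 0 := (mem_core.1 hz).1
      have hd : z - 1 ≠ 0 := sub_ne_zero.2 hz1
      rcases hcore' _ (A z hz hz1) (div_ne_zero (mul_ne_zero one_ne_zero (sub_ne_zero.2 hzb)) hd) (by
        intro e
        rw [div_eq_iff hd] at e
        exact hb1 (by linear_combination -e)) (by
        intro e
        rw [div_eq_iff hd] at e
        have : z * (b - 1) = 0 := by linear_combination -e
        exact (mul_ne_zero hz0 (sub_ne_zero.2 hb1)) this) with e | e
      · left; rwa [div_eq_iff hd, one_mul] at e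
      · right; rwa [div_eq_iff hd, one_mul] at e
    rcases hv y hyB hy1 hyb with e | e
    · exfalso
      rcases hv b' hbB' hb1' hbb.symm with e' | e'
      · have : (b' - y) * (1 - y) = 0 := by linear_combination e' - e
        rcases mul_eq_zero.1 this with e3 | e3
        · exact hyb' (sub_eq_zero.1 e3).symm
        · exact hy1 (sub_eq_zero.1 e3).symm
      · have : (y - b') * (y + b' - 2) = 0 := by linear_combination e' - e
        rcases mul_eq_zero.1 this with e3 | e3
        · exact hyb' (sub_eq_zero.1 e3)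
        · exact hfin (by linear_combination e + y * e3)
    · right
      linear_combination b * e + (y - 1) * hprod

/-- the squares for block size six -/
lemma six_square (hD : IsDesign 4 6 1 𝓑)
    (hSL : ∀ A : SpecialLinearGroup (Fin 2) K, ∀ B ∈ 𝓑, B.image (slPerm A) ∈ 𝓑)
    (hm1 : IsSquare (-1 : K)) (h2 : (2 : K) ≠ 0) {y : K} (hy : IsSquare y) (hy0 : y ≠ 0)
    (hy4 : y ^ 4 ≠ 1) : y = 2 ∨ 2 * y = 1 := by
  have hy1 : y ≠ 1 := fun e => hy4 (by rw [e, one_pow])
  obtain ⟨B, h, h1, hyB⟩ := exists_through hD one_ne_zero hy0 hy1.symm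
  have hp1 : (1 : K) ∈ pos B := mem_pos.2 ⟨h1, IsSquare.one⟩
  have hpy : y ∈ pos B := mem_pos.2 ⟨hyB, hy⟩
  have hsub : ({1, y} : Finset K) ⊆ pos B := by
    rw [Finset.insert_subset_iff, Finset.singleton_subset_iff]
    exact ⟨hp1, hpy⟩
  have hpc : (pos B).card ≤ 2 := by
    by_contra hcon
    push Not at hcon
    obtain ⟨hcl, -, h3⟩ := pos_structure hp hD hSL hm1 h h1 (Or.inl hcon)
    have h4 : (pos B).card = 4 := by
      rcases h3 with h3 | h3
      · omega
      · omega
    have h5 := pow_card_eq_one (pos B) (zero_notMem_pos B) hcl y hpy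
    rw [h4] at h5
    exact hy4 h5
  have hpe : pos B = {1, y} := by
    refine (Finset.eq_of_subset_of_card_le hsub ?_).symm
    rw [Finset.card_pair hy1.symm]
    exact hpc
  have e1 := card_pos_neg B
  have e2 := h.card hD
  rw [hpe, Finset.card_pair hy1.symm] at e1
  have hnc : (neg B).card = 2 := by omega
  obtain ⟨u, w, huw, hne⟩ := Finset.card_eq_two.1 hnc
  have hu : u ∈ neg B := by rw [hne]; simp
  have hw : w ∈ neg B := by rw [hne]; simp
  have hu' := mem_neg.1 hu
  have hw' := mem_neg.1 hw
  have hu0 : u ≠ 0 := (mem_core.1 hu'.1).1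
  have hw0 : w ≠ 0 := (mem_core.1 hw'.1).1
  have hu1 : u ≠ 1 := fun e => hu'.2 (by rw [e]; exact IsSquare.one)
  have hw1 : w ≠ 1 := fun e => hw'.2 (by rw [e]; exact IsSquare.one)
  have hcore : ∀ z ∈ core B, z = 1 ∨ z = y ∨ z = u ∨ z = w := by
    intro z hz
    by_cases hs : IsSquare z
    · have : z ∈ pos B := mem_pos.2 ⟨hz, hs⟩
      rw [hpe] at this
      simp only [Finset.mem_insert, Finset.mem_singleton] at this
      rcases this with e | e
      · exact Or.inl e
      · exact Or.inr (Or.inl e)
    · have : z ∈ neg B := mem_neg.2 ⟨hz, hs⟩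
      rw [hne] at this
      simp only [Finset.mem_insert, Finset.mem_singleton] at this
      rcases this with e | e
      · exact Or.inr (Or.inr (Or.inl e))
      · exact Or.inr (Or.inr (Or.inr e))
  have htau : ∀ z ∈ neg B, y = z * u ∨ y = z * w := by
    intro z hz
    have hz' := mem_neg.1 hz
    have hz0 : z ≠ 0 := (mem_core.1 hz'.1).1
    have h3 := h.tau hD hSL (x := 1) (y := y) hy1.symm h1 hyB (by
      rw [show -(1 * y) = -1 * y by ring]
      exact hm1.mul hy) z hz'.1
    have h4 : ¬ IsSquare (1 * y / z) := by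
      rw [one_mul]
      exact not_square_div hy hy0 hz'.2
    have h5 : 1 * y / z ∈ neg B := mem_neg.2 ⟨h3, h4⟩
    rw [hne] at h5
    simp only [Finset.mem_insert, Finset.mem_singleton, one_mul] at h5
    rcases h5 with e | e
    · left
      rw [div_eq_iff hz0] at e
      rw [e, mul_comm]
    · right
      rw [div_eq_iff hz0] at e
      rw [e, mul_comm]
  have hprod : u * w = y := by
    rcases htau u hu with e | e
    · rcases htau w hw with e' | e'
      · rw [e', mul_comm]
      · exfalso
        have h3 : (u - w) * (u + w) = 0 := by linear_combination e' - e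
        have h4 : w = -u := by
          have := (mul_eq_zero.1 h3).resolve_left (sub_ne_zero.2 huw)
          linear_combination this
        have h5 := h.rho hD hSL (x := u) (y := w) (m := -1) huw hu'.1 hw'.1
          (neg_ne_zero.2 one_ne_zero) hm1 (by
            have : -1 * u = w := by linear_combination -h4
            rw [this]; exact hw'.1) (by
            have : -1 * w = u := by linear_combination -h4
            rw [this]; exact hu'.1) 1 h1
        rw [mul_one] at h5
        have h6 : (-1 : K) ∈ pos B := mem_pos.2 ⟨h5, hm1⟩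
        rw [hpe] at h6
        simp only [Finset.mem_insert, Finset.mem_singleton] at h6
        rcases h6 with h6 | h6
        · exact h2 (by linear_combination -h6)
        · exact hy4 (by rw [← h6]; norm_num)
    · exact e.symm
  have hU := alternative hp hD hSL hm1 h hcore h1 hyB hu'.1 hw'.1 hy hu'.2 hw'.2 hprod hy1 huw
  have hW := alternative hp hD hSL hm1 h (b := w) (b' := u) (fun z hz => by
    rcases hcore z hz with e | e | e | e
    · exact Or.inl e
    · exact Or.inr (Or.inl e)
    · exact Or.inr (Or.inr (Or.inr e))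
    · exact Or.inr (Or.inr (Or.inl e))) h1 hyB hw'.1 hu'.1 hy hw'.2 hu'.2
    (by rw [mul_comm]; exact hprod) hy1 huw.symm
  -- eliminate `y`
  have cancel : ∀ a c : K, a ≠ 0 → a * c = 0 → c = 0 := fun a c ha hac =>
    (mul_eq_zero.1 hac).resolve_left ha
  have hA : ∀ u w : K, u ≠ 0 → u * w = y → u ^ 2 * (y - 1) = y * (y - u) →
      u * w = w ^ 2 - w + 1 := by
    intro u w hu0 hprod e
    rw [← hprod] at e
    have := cancel (u ^ 2) (u * w - (w ^ 2 - w + 1)) (pow_ne_zero 2 hu0) (by linear_combination e)
    linear_combination this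
  have hB : ∀ u w : K, u ≠ 0 → u * w = y → u * (y - u) = y * (y - 1) →
      u * w ^ 2 - u * w + u - w = 0 := by
    intro u w hu0 hprod e
    rw [← hprod] at e
    exact cancel u _ hu0 (by linear_combination -e)
  have hAB : ∀ u w : K, w ≠ 1 → u * w = y → u * w = w ^ 2 - w + 1 →
      w * u ^ 2 - w * u + w - u = 0 → False := by
    intro u w hw1 hprod e e'
    have h3 : (w - 1) * (w ^ 2 - 2 * w + 2) = 0 := by
      linear_combination e' - (u + w - 2) * e
    have h4 := cancel _ _ (sub_ne_zero.2 hw1) h3
    have h5 : y = w - 1 := by linear_combination -hprod + e + h4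
    refine hy4 ?_
    have h6 : y ^ 2 = -1 := by rw [h5]; linear_combination h4
    have h7 : y ^ 4 = (y ^ 2) ^ 2 := by ring
    rw [h7, h6]; norm_num
  rcases hU with eU | eU
  · have a1 := hA u w hu0 hprod eU
    rcases hW with eW | eW
    · have a2 := hA w u hw0 (by rw [mul_comm]; exact hprod) eW
      right
      have h3 : (u - w) * (u + w - 1) = 0 := by linear_combination a1 - a2
      have h4 := cancel _ _ (sub_ne_zero.2 huw) h3
      linear_combination -2 * hprod + a1 + (w) * h4
    · exfalso
      have a2 := hB w u hw0 (by rw [mul_comm]; exact hprod) eW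
      exact hAB u w hw1 hprod a1 a2
  · have a1 := hB u w hu0 hprod eU
    rcases hW with eW | eW
    · exfalso
      have a2 := hA w u hw0 (by rw [mul_comm]; exact hprod) eW
      exact hAB w u hu1 (by rw [mul_comm]; exact hprod) a2 a1
    · have a2 := hB w u hw0 (by rw [mul_comm]; exact hprod) eW
      left
      have h3 : u * (w * (u + w - 2)) = 0 := by linear_combination a1 + a2
      have h4 := cancel _ _ hw0 (cancel _ _ hu0 h3)
      have h5 : (u - w) * (u * w - 2) = 0 := by linear_combination a2 - a1
      have h6 := cancel _ _ (sub_ne_zero.2 huw) h5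
      linear_combination -hprod + h6

/-- block size six, `q = 1 (mod 4)` -/
theorem case_one_six (hD : IsDesign 4 6 1 𝓑)
    (hSL : ∀ A : SpecialLinearGroup (Fin 2) K, ∀ B ∈ 𝓑, B.image (slPerm A) ∈ 𝓑)
    (hm1 : IsSquare (-1 : K)) (h2 : (2 : K) ≠ 0) (hq4 : Fintype.card K % 4 = 1)
    (hkq : 6 < Fintype.card K + 1) : False := by
  have hq : Fintype.card K ≤ 13 := by
    by_contra hcon
    push Not at hcon
    let f : Polynomial K := Polynomial.X * (Polynomial.X ^ 8 - Polynomial.C 1) *
      (Polynomial.X ^ 2 - Polynomial.C 2) * (Polynomial.X ^ 2 - Polynomial.C (2⁻¹))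
    have hf : f ≠ 0 := by
      refine mul_ne_zero (mul_ne_zero (mul_ne_zero Polynomial.X_ne_zero ?_) ?_) ?_
      · exact Polynomial.X_pow_sub_C_ne_zero (by norm_num) _
      · exact Polynomial.X_pow_sub_C_ne_zero (by norm_num) _
      · exact Polynomial.X_pow_sub_C_ne_zero (by norm_num) _
    have hdeg : f.natDegree ≤ 13 := by
      have e1 : (Polynomial.X ^ 8 - Polynomial.C (1 : K)).natDegree ≤ 8 := by compute_degree
      have e2 : (Polynomial.X ^ 2 - Polynomial.C (2 : K)).natDegree ≤ 2 := by compute_degree
      have e3 : (Polynomial.X ^ 2 - Polynomial.C (2⁻¹ : K)).natDegree ≤ 2 := by compute_degree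
      refine (Polynomial.natDegree_mul_le_of_le (Polynomial.natDegree_mul_le_of_le
        (Polynomial.natDegree_mul_le_of_le Polynomial.natDegree_X_le e1) e2) e3).trans ?_
      norm_num
    obtain ⟨x, hx⟩ := exists_nonroot f hf (by omega)
    refine hx ?_
    simp only [f, Polynomial.eval_mul, Polynomial.eval_sub, Polynomial.eval_pow,
      Polynomial.eval_X, Polynomial.eval_C]
    by_cases hx0 : x = 0
    · rw [hx0]; ring
    by_cases hx8 : x ^ 8 = 1
    · rw [hx8]; ring
    rcases six_square hp hD hSL hm1 h2 (y := x ^ 2) ⟨x, by ring⟩ (pow_ne_zero 2 hx0) (by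
      rw [← pow_mul]; exact hx8) with e | e
    · rw [e]; ring
    · have : x ^ 2 = 2⁻¹ := eq_inv_of_mul_eq_one_right e
      rw [this]; ring
  have hdiv := divisibility hD 3 (by norm_num) (by
    rw [show Fintype.card (OnePoint K) = Fintype.card K + 1 from Fintype.card_option]; omega)
  rw [show Fintype.card (OnePoint K) = Fintype.card K + 1 from Fintype.card_option] at hdiv
  norm_num at hdiv
  omega

end

end Pool.Agent.N86.S4
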